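import Pool.Agent.Lib.MP_79fcf0_nt.U.Switch

/-!
The statements `Roots` and `Mod24` follow from `Switch`.
-/

open Finset

namespace Pool.Agent.Lib.MP_79fcf0_nt

variable {p : ℕ} [Fact p.Prime]

/-- A sign pattern gives a constant character on triples. -/
lemma triple_of_pattern (hp : p % 4 = 1) {m : ℕ} (hm : 0 < m) {ζ : ZMod p}
    (hζ : IsPrimitiveRoot ζ m) (hz : quadraticChar (ZMod p) ζ = 1) {e l : ℤ} (he : e * e = 1)
    (hl : l * l = 1) (h0 : ∀ a, 0 < a → a < m → quadraticChar (ZMod p) (1 - ζ ^ a) = e * l ^ a) :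
    ∃ w : ZMod p, w ≠ 0 ∧ ∀ x y z : ZMod p, x ^ m = 1 → y ^ m = 1 → z ^ m = 1 → x ≠ y → y ≠ z →
      z ≠ x → IsSquare (w * ((x - y) * (y - z) * (z - x))) := by
  have h1 := chi_neg_one hp
  obtain ⟨w, hw⟩ : ∃ w, quadraticChar (ZMod p) w = e := by
    rcases mul_self_eq_one_iff.1 he with rfl | rfl
    · exact ⟨1, map_one _⟩
    · exact quadraticChar_exists_neg_one (by rw [ZMod.ringChar_zmod_n]; omega)
  have w0 : w ≠ 0 := by rintro rfl; rw [MulChar.map_zero] at hw; simp [← hw] at he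
  have hl' (a : ℕ) : l ^ a * l ^ a = 1 := by rw [← mul_pow, hl, one_pow]
  have lt (a b : ℕ) (hab : a < b) (hb : b < m) :
      quadraticChar (ZMod p) (ζ ^ a - ζ ^ b) = e * l ^ a * l ^ b := by
    obtain ⟨d, rfl⟩ := Nat.exists_eq_add_of_le hab.le
    rw [show ζ ^ a - ζ ^ (a + d) = ζ ^ a * (1 - ζ ^ d) by ring, map_mul, map_pow, hz,
      h0 d (by omega) (by omega), pow_add]
    linear_combination -e * l ^ d * hl' a
  have ne (a b : ℕ) (ha : a < m) (hb : b < m) (hab : ζ ^ a ≠ ζ ^ b) :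
      quadraticChar (ZMod p) (ζ ^ a - ζ ^ b) = e * l ^ a * l ^ b := by
    rcases lt_trichotomy a b with c | rfl | c
    · exact lt a b c hb
    · exact absurd rfl hab
    · rw [← neg_sub, ← neg_one_mul, map_mul, h1, one_mul, lt b a c ha, mul_right_comm]
  have : NeZero m := ⟨hm.ne'⟩
  refine ⟨w, w0, fun x y z hx hy hz' a1 a2 a3 => ?_⟩
  obtain ⟨a, ha, rfl⟩ := hζ.eq_pow_of_pow_eq_one hx
  obtain ⟨b, hb, rfl⟩ := hζ.eq_pow_of_pow_eq_one hy
  obtain ⟨c, hc, rfl⟩ := hζ.eq_pow_of_pow_eq_one hz'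
  refine (quadraticChar_one_iff_isSquare (mul_ne_zero w0 (mul_ne_zero (mul_ne_zero
    (sub_ne_zero.2 a1) (sub_ne_zero.2 a2)) (sub_ne_zero.2 a3)))).1 ?_
  rw [map_mul, map_mul, map_mul, hw, ne a b ha hb a1, ne b c hb hc a2, ne c a hc ha a3]
  calc _ = (e * e) * (e * e) * (l ^ a * l ^ a) * (l ^ b * l ^ b) * (l ^ c * l ^ c) := by ring
    _ = 1 := by rw [he, hl', hl', hl']; rfl

/-- The statement `Roots` from `Switch`. -/
theorem roots_of_switch : ∀ m : ℕ, 0 < m → ∀ ε : ℝ, 0 < ε → ∃ p₀ : ℕ, ∀ p : ℕ, p.Prime →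
    p % 4 = 1 → p₀ ≤ p → ∀ ζ : ZMod p, IsPrimitiveRoot ζ m → IsSquare ζ →
      (∀ a, 0 < a → a < m → IsSquare (1 - ζ ^ a)) →
      ∃ S : Finset (ZMod p), Admissible S ∧
        ((m : ℝ) ^ 2 / (2 * jordan m) - ε) * Real.logb 2 p ≤ S.card := by
  intro m hm ε hε
  obtain ⟨p₀, h⟩ := main_switch m hm ε hε
  refine ⟨p₀, fun p hp h4 h0 ζ hζ hz h1 => ?_⟩
  have := Fact.mk hp
  have z0 := hζ.ne_zero hm.ne'
  obtain ⟨w, w0, hw⟩ := triple_of_pattern h4 hm hζ ((quadraticChar_one_iff_isSquare z0).2 hz)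
    (e := 1) (l := 1) rfl rfl fun a c1 c2 => by
      simpa using (quadraticChar_one_iff_isSquare (sub_ne_zero.2
        (hζ.pow_ne_one_of_pos_of_lt c1.ne' c2).symm)).2 (h1 a c1 c2)
  exact h p hp h4 h0 ((hζ.pow_eq_one_iff_dvd _).1 (ZMod.pow_card_sub_one_eq_one z0)) w w0 hw

/-- For `p ≡ 1 (mod 24)` the hypothesis of `Switch` holds with `m = 6`. -/
lemma triple_six (h4 : p % 24 = 1) : ∃ w : ZMod p, w ≠ 0 ∧ ∀ x y z : ZMod p, x ^ 6 = 1 →
    y ^ 6 = 1 → z ^ 6 = 1 → x ≠ y → y ≠ z → z ≠ x →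
      IsSquare (w * ((x - y) * (y - z) * (z - x))) := by
  have hp : p.Prime := Fact.out
  obtain ⟨g, hg⟩ := IsCyclic.exists_ofOrder_eq_natCard (α := (ZMod p)ˣ)
  rw [Nat.card_eq_fintype_card, ZMod.card_units] at hg
  obtain ⟨n, hn⟩ : ∃ n, p - 1 = n * 12 := ⟨(p - 1) / 12, by omega⟩
  have hη := (IsPrimitiveRoot.coe_units_iff.2 (hg ▸ IsPrimitiveRoot.orderOf g)).pow
    (Nat.sub_pos_of_lt hp.one_lt) hn
  generalize (g : ZMod p) ^ n = η at hη
  have hζ : IsPrimitiveRoot (η ^ 2) 6 := hη.pow (by norm_num) (by norm_num)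
  have hz : quadraticChar (ZMod p) (η ^ 2) = 1 := quadraticChar_sq_one' (hη.ne_zero (by norm_num))
  generalize η ^ 2 = ζ at hζ hz
  have h6 := hζ.pow_eq_one
  have h3 : ζ ^ 3 = -1 := (hζ.pow (by norm_num) (show 6 = 3 * 2 by norm_num)).eq_neg_one_of_two_right
  have h2 : 1 - ζ = -1 * ζ ^ 2 := by
    have c1 : ζ + 1 ≠ 0 := fun e => hζ.pow_ne_one_of_pos_of_lt (l := 2) (by norm_num) (by norm_num)
      (by linear_combination (ζ - 1) * e)
    exact mul_left_cancel₀ c1 (by linear_combination h3)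
  have h1 := chi_neg_one (p := p) (by omega)
  have h8 : quadraticChar (ZMod p) (1 - ζ ^ 3) = 1 :=
    (quadraticChar_one_iff_isSquare (sub_ne_zero.2 (hζ.pow_ne_one_of_pos_of_lt (by norm_num)
      (by norm_num)).symm)).2 (by
        rw [h3, show (1 : ZMod p) - -1 = 2 by ring]
        exact (ZMod.exists_sq_eq_two_iff (by omega)).2 (by omega))
  have h9 : quadraticChar (ZMod p) (1 - ζ) = 1 := by rw [h2, map_mul, map_pow, h1, hz]; rfl
  have hc := quadraticChar_dichotomy (sub_ne_zero.2 (hζ.pow_ne_one_of_pos_of_lt (l := 2)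
    (by norm_num) (by norm_num)).symm)
  set c := quadraticChar (ZMod p) (1 - ζ ^ 2) with hcd
  exact triple_of_pattern (by omega) (by norm_num) hζ hz (e := c) (l := c)
    (by rcases hc with e | e <;> simp [e]) (by rcases hc with e | e <;> simp [e]) fun a c1 c2 => by
      have d4 : quadraticChar (ZMod p) (1 - ζ ^ 4) = c := by
        rw [show 1 - ζ ^ 4 = -1 * ζ ^ 4 * (1 - ζ ^ 2) by linear_combination -h6, map_mul, map_mul,
          map_pow, h1, hz, one_pow, one_mul, one_mul]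
      have d5 : quadraticChar (ZMod p) (1 - ζ ^ 5) = 1 := by
        rw [show 1 - ζ ^ 5 = -1 * ζ ^ 5 * (1 - ζ) by linear_combination -h6, map_mul, map_mul,
          map_pow, h1, hz, h9, one_pow, one_mul, one_mul]
      interval_cases a <;> simp only [pow_one, h9, ← hcd, h8, d4, d5] <;>
        rcases hc with e | e <;> rw [e] <;> norm_num

/-- The statement `Mod24` from `Switch`. -/
theorem mod24_of_switch : ∀ ε : ℝ, 0 < ε → ∃ p₀ : ℕ, ∀ p : ℕ, p.Prime → p % 24 = 1 → p₀ ≤ p →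
    ∃ S : Finset (ZMod p), Admissible S ∧ (3 / 4 - ε) * Real.logb 2 p ≤ S.card := by
  intro ε hε
  obtain ⟨p₀, h⟩ := main_switch 6 (by norm_num) ε hε
  refine ⟨p₀, fun p hp h4 h0 => ?_⟩
  have := Fact.mk hp
  obtain ⟨w, w0, hw⟩ := triple_six h4
  obtain ⟨S, b1, b2⟩ := h p hp (by omega) h0 (by omega) w w0 hw
  rw [show jordan 6 = 24 by decide] at b2
  refine ⟨S, b1, le_of_eq_of_le ?_ b2⟩
  norm_num

end Pool.Agent.Lib.MP_79fcf0_nt
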