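import Pool.Agent.Lib.MP_79fcf0_nt.GPFinal
import Pool.Agent.Lib.MP_79fcf0_nt.Final

/-!
The lower bound when the roots of unity form a switching class of cliques.
-/

open Finset

namespace Pool.Agent.Lib.MP_79fcf0_nt

variable {p : ℕ} [Fact p.Prime]

lemma chi_neg_one (hp : p % 4 = 1) : quadraticChar (ZMod p) (-1) = 1 :=
  (quadraticChar_one_iff_isSquare (by simp)).2 (ZMod.exists_sq_eq_neg_one_iff.2 (by omega))

lemma chi_mul_self {x : ZMod p} (hx : x ≠ 0) :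
    quadraticChar (ZMod p) x * quadraticChar (ZMod p) x = 1 := by
  rw [← sq]; exact quadraticChar_sq_one hx

/-- The sign pattern forced by a constant character on triples. -/
lemma pattern (hp : p % 4 = 1) {m : ℕ} (hm : 3 ≤ m) {ζ w : ZMod p} (hζ : IsPrimitiveRoot ζ m)
    (hw : w ≠ 0) (h : ∀ x y z : ZMod p, x ^ m = 1 → y ^ m = 1 → z ^ m = 1 → x ≠ y → y ≠ z →
      z ≠ x → IsSquare (w * ((x - y) * (y - z) * (z - x)))) :
    quadraticChar (ZMod p) ζ = 1 ∧ ∃ e l : ℤ, e * e = 1 ∧ l * l = 1 ∧ l ^ m = 1 ∧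
      (∀ q n, q.Prime → m = n * q → ∏ j ∈ range q, e * l ^ (n * j) = e) ∧
      ∀ a, 0 < a → a < m → quadraticChar (ZMod p) (1 - ζ ^ a) = e * l ^ a := by
  have h1 := chi_neg_one hp
  have z0 : ζ ≠ 0 := hζ.ne_zero (by omega)
  have hr (a : ℕ) : (ζ ^ a) ^ m = 1 := by rw [← pow_mul, mul_comm, pow_mul, hζ.pow_eq_one, one_pow]
  have hn {a : ℕ} (a0 : 0 < a) (a1 : a < m) : 1 - ζ ^ a ≠ 0 :=
    sub_ne_zero.2 (hζ.pow_ne_one_of_pos_of_lt a0.ne' a1).symm
  set χ := quadraticChar (ZMod p) with hχ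
  have hu := hn (a := 1) one_pos (by omega)
  rw [pow_one] at hu
  have T (c a : ℕ) (a0 : 0 < a) (a1 : a + 1 < m) :
      χ w * (χ ζ ^ (3 * c + a) * (χ (1 - ζ ^ a) * χ (1 - ζ) * χ (1 - ζ ^ (a + 1)))) = 1 := by
    have b1 := hn a0 (by omega)
    have b2 := hn (a := a + 1) (by omega) a1
    have b3 : ζ ^ c - ζ ^ (c + a) = ζ ^ c * (1 - ζ ^ a) := by ring
    have b4 : ζ ^ (c + a) - ζ ^ (c + a + 1) = ζ ^ (c + a) * (1 - ζ) := by ring
    have b5 : ζ ^ (c + a + 1) - ζ ^ c = -1 * (ζ ^ c * (1 - ζ ^ (a + 1))) := by ring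
    have c3 : ζ ^ c - ζ ^ (c + a) ≠ 0 := b3 ▸ mul_ne_zero (pow_ne_zero _ z0) b1
    have c4 : ζ ^ (c + a) - ζ ^ (c + a + 1) ≠ 0 := b4 ▸ mul_ne_zero (pow_ne_zero _ z0) hu
    have c5 : ζ ^ (c + a + 1) - ζ ^ c ≠ 0 :=
      b5 ▸ mul_ne_zero (by simp) (mul_ne_zero (pow_ne_zero _ z0) b2)
    have b6 := (quadraticChar_one_iff_isSquare
      (mul_ne_zero hw (mul_ne_zero (mul_ne_zero c3 c4) c5))).2
      (h _ _ _ (hr c) (hr (c + a)) (hr (c + a + 1)) (sub_ne_zero.1 c3) (sub_ne_zero.1 c4)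
        (sub_ne_zero.1 c5))
    rw [b3, b4, b5] at b6
    simp only [map_mul, map_pow, ← hχ, h1] at b6
    rw [← b6]
    ring
  have s0 : χ ζ * χ ζ = 1 := chi_mul_self z0
  have hz : χ ζ = 1 := by
    have b1 := T 0 1 one_pos (by omega)
    have b2 := T 1 1 one_pos (by omega)
    rcases mul_self_eq_one_iff.1 s0 with e | e
    · exact e
    · rw [e] at b1 b2
      norm_num at b1 b2
      linarith
  have he : χ w * χ w = 1 := chi_mul_self hw
  have s1 : χ (1 - ζ) * χ (1 - ζ) = 1 := chi_mul_self hu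
  have hl : χ w * χ (1 - ζ) * (χ w * χ (1 - ζ)) = 1 := by
    rw [mul_mul_mul_comm, he, s1, one_mul]
  set e := χ w with hed
  set l := e * χ (1 - ζ) with hld
  have h0 (a : ℕ) : 0 < a → a < m → χ (1 - ζ ^ a) = e * l ^ a := by
    induction a with
    | zero => intro a0; omega
    | succ a ih =>
      intro _ a1
      rcases Nat.eq_zero_or_pos a with rfl | a0
      · rw [zero_add, pow_one, pow_one, hld, ← mul_assoc, he, one_mul]
      · have b1 := T 0 a a0 a1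
        have b2 := ih a0 (by omega)
        have b3 : χ (1 - ζ ^ (a + 1)) * χ (1 - ζ ^ (a + 1)) = 1 :=
          chi_mul_self (hn (by omega) a1)
        rw [hz, one_pow, one_mul, b2] at b1
        rw [pow_succ l]
        linear_combination (-χ (1 - ζ ^ (a + 1))) * b1 + e * l ^ a * l * b3
  have hlm : l ^ m = 1 := by
    obtain ⟨k, rfl⟩ : ∃ k, m = k + 1 := ⟨m - 1, by omega⟩
    have b1 := h0 k (by omega) (by omega)
    have b2 := h0 1 (by omega) (by omega)
    have b3 : 1 - ζ ^ k = -1 * (ζ ^ k * (1 - ζ ^ 1)) := by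
      linear_combination -hζ.pow_eq_one
    rw [b3, map_mul, map_mul, map_pow, h1, hz, b2] at b1
    rw [pow_succ]
    linear_combination -e * l * b1 - l ^ k * l * he + l * l * he + hl
  refine ⟨hz, e, l, he, hl, hlm, fun q n hq hq1 => ?_, h0⟩
  rcases hq.eq_two_or_odd' with rfl | ⟨k, rfl⟩
  · have b1 := h0 2 (by omega) (by omega)
    have b2 := h0 1 (by omega) (by omega)
    have b3 := h0 (n + 1) (by omega) (by omega)
    have b4 : ζ ^ n = -1 := (hζ.pow (by omega) hq1).eq_neg_one_of_two_right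
    have b5 : 1 - ζ ^ 2 = (1 - ζ ^ 1) * (1 - ζ ^ (n + 1)) := by
      rw [pow_succ ζ n, b4]; ring
    rw [b5, map_mul, b2, b3] at b1
    simp only [prod_range_succ, prod_range_zero, mul_zero, mul_one, pow_zero, one_mul]
    rw [pow_succ l n] at b1
    linear_combination b1 - e * e * l ^ n * hl + e * hl
  · rw [prod_mul_distrib, prod_const, card_range, prod_pow_eq_pow_sum, ← mul_sum]
    have b1 : ∑ j ∈ range (2 * k + 1), j = (2 * k + 1) * k := by
      have := sum_range_id_mul_two (2 * k + 1)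
      simp only [Nat.add_sub_cancel] at this
      nlinarith
    rw [b1, ← mul_assoc, ← hq1, pow_mul l, hlm, one_pow, mul_one, pow_succ, pow_mul, sq, he,
      one_pow, one_mul]

/-- The bound when all triples of distinct `m`-th roots of unity have the same character. -/
theorem main_switch (m : ℕ) (hm : 0 < m) (ε : ℝ) (hε : 0 < ε) : ∃ p₀ : ℕ, ∀ p : ℕ, p.Prime →
    p % 4 = 1 → p₀ ≤ p → m ∣ p - 1 → ∀ w : ZMod p, w ≠ 0 →
      (∀ x y z : ZMod p, x ^ m = 1 → y ^ m = 1 → z ^ m = 1 → x ≠ y → y ≠ z → z ≠ x →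
        IsSquare (w * ((x - y) * (y - z) * (z - x)))) →
      ∃ S : Finset (ZMod p), Admissible S ∧
        ((m : ℝ) ^ 2 / (2 * jordan m) - ε) * Real.logb 2 p ≤ S.card := by
  rcases lt_or_ge m 3 with h3 | h3
  · obtain ⟨p₀, h⟩ := main
    refine ⟨p₀, fun p hp h4 h0 _ _ _ _ => ?_⟩
    obtain ⟨S, b1, b2⟩ := h p hp h4 h0
    refine ⟨S, b1, le_trans ?_ b2⟩
    have c1 : (m : ℝ) ^ 2 / (2 * jordan m) ≤ 2 / 3 := by
      interval_cases m
      · rw [show jordan 1 = 1 by decide]; norm_num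
      · rw [show jordan 2 = 3 by decide]; norm_num
    have c2 := Real.log_two_gt_d9
    have c3 : Real.logb 2 p * Real.log 2 = Real.log p := by
      rw [Real.logb, div_mul_cancel₀ _ (Real.log_pos (by norm_num)).ne']
    have c4 : 0 ≤ Real.logb 2 p := Real.logb_nonneg (by norm_num) (by exact_mod_cast hp.one_le)
    nlinarith
  obtain ⟨p₀, h⟩ := exists_level hm hε
  refine ⟨p₀, fun p hp h4 h0 ⟨n, hn⟩ w hw h1 => ?_⟩
  have := Fact.mk hp
  obtain ⟨M, a1, a2, a3, a4⟩ := h p h0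
  obtain ⟨g, hg⟩ := IsCyclic.exists_ofOrder_eq_natCard (α := (ZMod p)ˣ)
  rw [Nat.card_eq_fintype_card, ZMod.card_units] at hg
  have hζ := (IsPrimitiveRoot.coe_units_iff.2 (hg ▸ IsPrimitiveRoot.orderOf g)).pow
    (Nat.sub_pos_of_lt hp.one_lt) (hn.trans (mul_comm _ _))
  obtain ⟨hz, e, l, he, hl, hlm, hrel, hpat⟩ := pattern h4 h3 hζ hw h1
  obtain ⟨S, b1, b2⟩ := core h4 a1 hm hζ hz he hl hlm hrel hpat a2 a3
  have b3 : ((m * (m * M) : ℕ) : ℝ) ≤ S.card + 2 := by exact_mod_cast b2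
  exact ⟨S, b1, by linarith⟩

end Pool.Agent.Lib.MP_79fcf0_nt
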